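import Pool.Agent.L7h9.VA.Small
set_option autoImplicit false

/-!
Variants of the estimates of the regulator integrals, with a multiplication of the angles by an
integer, and small tori in an affine space.
-/

namespace Pool.Agent.L7h9.NC

open Filter Topology MeasureTheory Set

open MvPolynomial

open Pool.Agent.TH826.MK

open Pool.Agent.TH826.SX

open Pool.Agent.N65.TL

open Pool.Agent.TH577.UA

open Pool.Agent.L7h9.SU

open Pool.Agent.Y797.TW (exists_rapid nex ex mch wcc eval_mch prod_wcc hh contDiff_hh hh_zero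
  contDiff_wcc wcc_zero IsLow)

section close

variable {d : ℕ}

theorem pairing_closeN (R : Matrix (Fin (d + 1)) (Fin (d + 1)) ℝ) {ε : ℝ} (hε : 0 < ε) :
    ∃ δ : ℝ, 0 < δ ∧ ∀ (k : ℕ), 0 < k → ∀ (g : Fin (d + 1) → (Fin d → ℝ) → ℂ) (s : ℝ), s ≠ 0 →
      (∀ l, Good (g l)) →
      (∀ l θ, |Real.log ‖g l θ‖ / s - R l 0| < δ) →
      (∀ l j θ, ‖lw (g l) j θ - k * (2 * Real.pi * Complex.I * R l j.succ)‖ < k * δ) →
      |pairing g / (s * (k : ℝ) ^ d) - (2 * Real.pi) ^ d * R.det| ≤ ε := by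
  set N0 : Fin (d + 1) → Fin (d + 1) → ℂ := fun l => Fin.cons ((R l 0 : ℝ) : ℂ)
    fun j => 2 * Real.pi * Complex.I * R l j.succ with hN0
  obtain ⟨δ, hδ, hdet⟩ := det_near N0 hε
  refine ⟨δ / 2, by linarith, fun k hk g s hs hg h1 h2 => ?_⟩
  have hkR : (0 : ℝ) < k := by exact_mod_cast hk
  have hkC : (k : ℂ) ≠ 0 := by exact_mod_cast hk.ne'
  set N : (Fin (d + 1) → ℝ) → Fin (d + 1) → Fin (d + 1) → ℂ := fun y l =>
    Fin.cons (((Real.log ‖g l (tl d y)‖ / s : ℝ)) : ℂ) fun j => grow (g l) y j.succ / k with hN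
  have hsc : (s : ℂ) ≠ 0 := by exact_mod_cast hs
  -- the determinant of the orders
  have hdet0 : (Matrix.of N0).det = (2 * Real.pi * Complex.I) ^ d * (R.det : ℂ) := by
    have e : Matrix.of N0 = Matrix.of fun l j => (Fin.cons 1 fun _ => 2 * Real.pi * Complex.I :
        Fin (d + 1) → ℂ) j * (R.map (fun x : ℝ => (x : ℂ))) l j := by
      ext l j
      rw [Matrix.of_apply, Matrix.of_apply, Matrix.map_apply]
      refine Fin.cases ?_ (fun j => ?_) j
      · simp [hN0]
      · simp [hN0]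
    rw [e, Matrix.det_mul_row, Fin.prod_univ_succ]
    simp only [Fin.cons_zero, Fin.cons_succ, one_mul, Finset.prod_const, Finset.card_univ,
      Fintype.card_fin]
    congr 1
    exact (RingHom.map_det Complex.ofRealHom R).symm
  have hmain0 : ((-Complex.I) ^ d * (Matrix.of N0).det).re = (2 * Real.pi) ^ d * R.det := by
    rw [hdet0, ← mul_assoc, ← mul_pow]
    have e : -Complex.I * (2 * Real.pi * Complex.I) = ((2 * Real.pi : ℝ) : ℂ) := by
      push_cast
      linear_combination (-(2 * (Real.pi : ℂ))) * Complex.I_mul_I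
    rw [e, ← Complex.ofReal_pow, ← Complex.ofReal_mul, Complex.ofReal_re]
  -- the integrand
  have hint : ∀ y, integrand g y = (s * (k : ℝ) ^ d) *
      ((-Complex.I) ^ d * (Matrix.of (N y)).det).re := by
    intro y
    unfold integrand
    have e : (Matrix.of fun l => grow (g l) y) = Matrix.of fun l j =>
        (Fin.cons (s : ℂ) fun _ => (k : ℂ) : Fin (d + 1) → ℂ) j * (Matrix.of (N y)) l j := by
      ext l j
      rw [Matrix.of_apply, Matrix.of_apply, Matrix.of_apply]
      refine Fin.cases ?_ (fun j => ?_) j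
      · simp only [hN, Fin.cons_zero, grow_zero]
        push_cast
        field_simp
      · simp only [hN, Fin.cons_succ]
        field_simp
    rw [e, Matrix.det_mul_row, Fin.prod_univ_succ]
    simp only [Fin.cons_zero, Fin.cons_succ, Finset.prod_const, Finset.card_univ,
      Fintype.card_fin]
    have e2 : (-Complex.I) ^ d * ((s : ℂ) * (k : ℂ) ^ d * (Matrix.of (N y)).det) =
        ((s * (k : ℝ) ^ d : ℝ) : ℂ) * ((-Complex.I) ^ d * (Matrix.of (N y)).det) := by
      push_cast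
      ring
    rw [e2, Complex.re_ofReal_mul]
  have hclose : ∀ y ∈ Icc (0 : Fin (d + 1) → ℝ) 1, ∀ l j, ‖N y l j - N0 l j‖ < δ := by
    intro y hy l j
    refine Fin.cases ?_ (fun j => ?_) j
    · simp only [hN, hN0, Fin.cons_zero]
      rw [← Complex.ofReal_sub, Complex.norm_real, Real.norm_eq_abs]
      exact (h1 l _).trans (by linarith)
    · simp only [hN, hN0, Fin.cons_succ, grow_succ]
      set w : ℂ := lw (g l) j (tl d y) with hw
      set q : ℂ := w / k - 2 * Real.pi * Complex.I * R l j.succ with hq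
      have hq2 : ‖q‖ < δ / 2 := by
        have e1 : q = (w - k * (2 * Real.pi * Complex.I * R l j.succ)) / k := by
          rw [hq]
          field_simp
        rw [e1, norm_div, Complex.norm_natCast, div_lt_iff₀ hkR, mul_comm (δ / 2)]
        exact h2 l j _
      have hwq : w = (k : ℝ) * (q + 2 * Real.pi * Complex.I * R l j.succ) := by
        rw [hq]
        push_cast
        field_simp
        ring
      have hre : w.re = k * q.re := by
        rw [hwq, Complex.re_ofReal_mul]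
        simp
      have him : w.im = k * (q.im + 2 * Real.pi * R l j.succ) := by
        rw [hwq, Complex.im_ofReal_mul]
        simp
      rw [hre, him]
      have e : (((y 0 * (k * q.re) : ℝ)) + Complex.I *
            ((k * (q.im + 2 * Real.pi * R l j.succ) : ℝ) : ℂ)) / k -
          2 * Real.pi * Complex.I * R l j.succ = ((y 0 * q.re : ℝ) : ℂ) +
            Complex.I * ((q.im : ℝ) : ℂ) := by
        push_cast
        field_simp
        ring
      rw [e]
      refine (norm_add_le _ _).trans_lt ?_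
      rw [norm_mul, Complex.norm_I, one_mul, Complex.norm_real, Complex.norm_real,
        Real.norm_eq_abs, Real.norm_eq_abs, abs_mul]
      have h3 : |y 0| ≤ 1 := by
        rw [abs_of_nonneg (hy.1 0)]
        exact hy.2 0
      have h4 := Complex.abs_re_le_norm q
      have h5 := Complex.abs_im_le_norm q
      have h6 : |y 0| * |q.re| ≤ 1 * ‖q‖ := mul_le_mul h3 h4 (abs_nonneg _) zero_le_one
      linarith
  have hsk : s * (k : ℝ) ^ d ≠ 0 := mul_ne_zero hs (pow_ne_zero _ hkR.ne')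
  have hcont : Continuous fun y => integrand g y / (s * (k : ℝ) ^ d) :=
    (continuous_integrand hg).div_const _
  have hp : pairing g / (s * (k : ℝ) ^ d) =
      ∫ y in Icc (0 : Fin (d + 1) → ℝ) 1, integrand g y / (s * (k : ℝ) ^ d) := by
    unfold pairing
    rw [integral_div]
  rw [hp, ← hmain0]
  refine abs_integral_sub_le hcont fun y hy => ?_
  rw [hint, mul_div_cancel_left₀ _ hsk, ← Complex.sub_re, ← mul_sub]
  refine (Complex.abs_re_le_norm _).trans ?_
  rw [norm_mul, norm_pow, norm_neg, Complex.norm_I, one_pow, one_mul]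
  exact (hdet (N y) (hclose y hy)).le

end close

section lead

variable {n : ℕ}

theorem lead_closeN (R : Matrix (Fin (n + 1)) (Fin (n + 1)) ℝ) {ε : ℝ} (hε : 0 < ε) :
    ∃ δ : ℝ, 0 < δ ∧ ∀ k : ℕ, 0 < k → ∀ H : Fin (n + 1) → (Fin n → ℝ) → ℂ,
      (∀ l, Good (H l)) → (∀ l, Per (H l)) →
      (∀ l j θ, ‖lw (H l) j θ - k * (2 * Real.pi * Complex.I * R l j.succ)‖ ≤ k * δ) →
      |(∑ l, R l 0 * pairing (Function.update H l fun _ => (2 : ℂ))) / Real.log 2 /
        (k : ℝ) ^ n - (2 * Real.pi) ^ n * R.det| ≤ ε := by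
  obtain ⟨δ1, hδ1, h1⟩ := pairing_closeN R (half_pos hε)
  refine ⟨δ1 / 2, by linarith, fun k hk H hH hP hlw => ?_⟩
  have hkR : (0 : ℝ) < k := by exact_mod_cast hk
  have hkn : (0 : ℝ) < (k : ℝ) ^ n := pow_pos hkR n
  obtain ⟨δ2, hδ2, h2⟩ := Pool.Agent.L7h9.CP.asyC (k := 1) one_pos hH hP (fun _ => 1)
    (fun l => R l 0) (mul_pos hkn (half_pos hε))
  choose Cu hCu0 hCul hCuw using fun i => Good.bdd (hH i) (hP i)
  set Cs : ℝ := ∑ i, Cu i with hCs
  have hCs0 : 0 ≤ Cs := Finset.sum_nonneg fun i _ => hCu0 i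
  have hCule : ∀ i, Cu i ≤ Cs := fun i =>
    Finset.single_le_sum (f := Cu) (fun i _ => hCu0 i) (Finset.mem_univ i)
  set δ : ℝ := min (δ1 / 2) δ2 with hδ
  have hδ0 : 0 < δ := lt_min (by linarith) hδ2
  set t : ℝ := Cs / δ + 1 with ht
  have htpos : 0 < t := by positivity
  set Z : Fin (n + 1) → (Fin n → ℝ) → ℂ := fun l θ => ((Real.exp (t * R l 0) : ℝ) : ℂ) * H l θ
    with hZ
  have hexp : ∀ l, ((Real.exp (t * R l 0) : ℝ) : ℂ) ≠ 0 := fun l => by
    exact_mod_cast (Real.exp_pos _).ne'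
  have hZg : ∀ l, Good (Z l) := fun l => (good_const (hexp l)).mul (hH l)
  have hZlw : ∀ l j θ, lw (Z l) j θ = lw (H l) j θ := fun l j θ => by
    simp only [hZ]
    rw [lw_mul (good_const (hexp l)) (hH l), lw_const, zero_add]
  have hZlog : ∀ l θ, |Real.log ‖Z l θ‖ / t - R l 0| ≤ δ := by
    intro l θ
    have e1 : Real.log ‖Z l θ‖ = t * R l 0 + Real.log ‖H l θ‖ := by
      simp only [hZ]
      rw [norm_mul, Real.log_mul (norm_ne_zero_iff.2 (hexp l))
        (norm_ne_zero_iff.2 ((hH l).ne_zero θ)), Complex.norm_real, Real.norm_eq_abs,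
        abs_of_pos (Real.exp_pos _), Real.log_exp]
    have e2 : Real.log ‖Z l θ‖ / t - R l 0 = Real.log ‖H l θ‖ / t := by
      rw [e1]
      field_simp
      ring
    rw [e2, abs_div, abs_of_pos htpos, div_le_iff₀ htpos]
    have h3 := (hCul l θ).trans (hCule l)
    have h4 : Cs / δ ≤ t := by linarith
    rw [div_le_iff₀ hδ0] at h4
    linarith
  have a1 := h1 k hk Z t htpos.ne' hZg
    (fun l θ => lt_of_le_of_lt ((hZlog l θ).trans (min_le_left _ _)) (by linarith))
    (fun l j θ => by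
      rw [hZlw]
      refine lt_of_le_of_lt (hlw l j θ) ?_
      exact mul_lt_mul_of_pos_left (by linarith) hkR)
  have a2 := h2 Z t htpos hZg (fun l θ => by
      rw [one_mul]
      exact (hZlog l θ).trans (min_le_right _ _)) (fun l j θ => by
      rw [hZlw, Complex.ofReal_one, one_mul, Nat.cast_one, one_smul, sub_self, norm_zero]
      exact hδ2.le)
  rw [Finset.prod_const_one, one_mul] at a2
  set S : ℝ := (∑ l, R l 0 * pairing (Function.update H l fun _ => (2 : ℂ))) / Real.log 2 with hS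
  have a3 : |pairing Z / (t * (k : ℝ) ^ n) - S / (k : ℝ) ^ n| ≤ ε / 2 := by
    have e3 : pairing Z / (t * (k : ℝ) ^ n) - S / (k : ℝ) ^ n =
        (pairing Z / t - S) / (k : ℝ) ^ n := by
      field_simp
    rw [e3, abs_div, abs_of_pos hkn, div_le_iff₀ hkn, mul_comm (ε / 2)]
    exact a2
  rw [abs_le] at a1 a3 ⊢
  constructor <;> linarith [a1.1, a1.2, a3.1, a3.2]

end lead

section small

variable {M d : ℕ}

theorem mch_zero (m : Fin M → ℕ) : mch m 0 = 0 := by
  funext j
  unfold mch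
  refine Finset.prod_eq_zero (Finset.mem_univ j) ?_
  unfold ex
  rw [if_pos rfl, pow_one]
  rfl

theorem exists_small {E : Type*} [Fintype E] (q : E → MvPolynomial (Fin (M + 1)) ℂ)
    (al : E → Fin (M + 1) →₀ ℕ) (hal : ∀ e, IsLow (q e) (al e)) (τ : Fin (M + 1) → Fin d) :
    ∃ m : Fin (M + 1) → ℕ, ∀ δ : ℝ, 0 < δ → ∃ w : (Fin d → ℝ) → Fin (M + 1) → ℂ,
      ContDiff ℝ 2 w ∧ (∀ θ i, w (θ + Pi.single i 1) = w θ) ∧ (∀ θ l, ‖w θ l‖ ≤ δ) ∧
      ∀ e, Good (fun θ => MvPolynomial.eval (w θ) (q e)) ∧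
        ∀ j θ, ‖lw (fun θ => MvPolynomial.eval (w θ) (q e)) j θ - 2 * Real.pi * Complex.I *
          (∑ l, if j = τ l then (nex m (fun i => al e i) l : ℂ) else 0)‖ ≤ δ := by
  classical
  set D0 : ℕ := ∑ e, ∑ j, al e j with hD0
  have hD : ∀ e j, al e j ≤ D0 := fun e j =>
    (Finset.single_le_sum (f := fun j => al e j) (fun _ _ => Nat.zero_le _)
      (Finset.mem_univ j)).trans
    (Finset.single_le_sum (f := fun e => ∑ j, al e j) (fun _ _ => Nat.zero_le _)
      (Finset.mem_univ e))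
  obtain ⟨m, hm⟩ := exists_rapid D0 (M + 1)
  refine ⟨m, fun δ hδ => ?_⟩
  set mu : E → Fin (M + 1) → ℕ := fun e => nex m fun i => al e i with hmu
  set h : E → (Fin M → ℂ) × ℂ → ℂ := fun e y => hh m (q e) (al e) (wcc y) with hh'
  have hfac : ∀ e y, MvPolynomial.eval (mch m (wcc y)) (q e) =
      mmon (mu e) y * h e y := fun e y => by
    rw [eval_mch hm (hal e) (hD e), prod_wcc]
  have hcd : ∀ e, ContDiff ℂ 2 (h e) := fun e => (contDiff_hh m _ _).comp contDiff_wcc
  have hne : ∀ e, h e 0 ≠ 0 := fun e => by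
    simp only [hh']
    rw [wcc_zero]
    exact hh_zero hm (hal e) (hD e)
  have hmch : ContDiff ℂ 2 fun u : (Fin M → ℂ) × ℂ => mch m (wcc u) := by
    refine contDiff_pi.2 fun j => ?_
    unfold mch
    exact contDiff_prod fun l _ => (contDiff_pi.1 contDiff_wcc l).pow _
  have hev : ∀ᶠ y in 𝓝 (0 : (Fin M → ℂ) × ℂ), ‖mch m (wcc y)‖ ≤ δ := by
    have h1 : Tendsto (fun y : (Fin M → ℂ) × ℂ => ‖mch m (wcc y)‖) (𝓝 0)
        (𝓝 ‖mch m (wcc (0 : (Fin M → ℂ) × ℂ))‖) := hmch.continuous.norm.tendsto 0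
    rw [wcc_zero, mch_zero, norm_zero] at h1
    exact h1.eventually (eventually_le_nhds hδ)
  obtain ⟨Cc, ρ, hC, hρ, hρ1, hrho⟩ := exists_rho (k := 1) one_pos h
    (fun e => (hcd e).contDiffAt) hne (P := fun y => ‖mch m (wcc y)‖ ≤ δ) hev hδ
  obtain ⟨hPY, hfun⟩ := hrho d τ
  set Y : (Fin d → ℝ) → (Fin M → ℂ) × ℂ := yk 1 ρ τ with hY
  have hhg : ∀ e, Good fun θ => h e (Y θ) := fun e => (hfun e).1
  have hhlw : ∀ e θ j, ‖lw (fun θ => h e (Y θ)) j θ‖ ≤ δ := fun e θ j => ((hfun e).2 θ).2 j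
  refine ⟨fun θ => mch m (wcc (Y θ)), ?_, fun θ i => ?_, fun θ l => ?_, fun e => ?_⟩
  · exact (hmch.restrict_scalars ℝ).comp (contDiff_yk hρ)
  · simp only [hY, yk_add_single]
  · exact (norm_le_pi_norm _ l).trans (hPY θ)
  · have hLfun : (fun θ => MvPolynomial.eval (mch m (wcc (Y θ))) (q e)) =
        fun θ => mk1 ρ τ (fun i => 1 * mu e i) θ * h e (Y θ) := by
      funext θ
      rw [hfac, hY, mmon_yk]
    rw [hLfun]
    refine ⟨(good_mk1 hρ _).mul (hhg e), fun j θ => ?_⟩
    rw [lw_mul (good_mk1 hρ _) (hhg e), lw_mk1 hρ]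
    have h1 : ∑ i, (if j = τ i then (((1 * mu e i : ℕ)) : ℂ) else 0) =
        ∑ l, if j = τ l then (nex m (fun i => al e i) l : ℂ) else 0 := by
      refine Finset.sum_congr rfl fun l _ => ?_
      rw [one_mul]
    rw [h1, add_sub_cancel_left]
    exact hhlw e θ j

theorem exists_small' {M' : ℕ} (hM : 0 < M') {E : Type*} [Fintype E]
    (q : E → MvPolynomial (Fin M') ℂ) (al : E → Fin M' →₀ ℕ) (hal : ∀ e, IsLow (q e) (al e))
    (τ : Fin M' → Fin d) :
    ∃ m : Fin M' → ℕ, ∀ δ : ℝ, 0 < δ → ∃ w : (Fin d → ℝ) → Fin M' → ℂ,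
      ContDiff ℝ 2 w ∧ (∀ θ i, w (θ + Pi.single i 1) = w θ) ∧ (∀ θ l, ‖w θ l‖ ≤ δ) ∧
      ∀ e, Good (fun θ => MvPolynomial.eval (w θ) (q e)) ∧
        ∀ j θ, ‖lw (fun θ => MvPolynomial.eval (w θ) (q e)) j θ - 2 * Real.pi * Complex.I *
          (∑ l, if j = τ l then (nex m (fun i => al e i) l : ℂ) else 0)‖ ≤ δ := by
  obtain ⟨M, rfl⟩ := Nat.exists_eq_succ_of_ne_zero hM.ne'
  exact exists_small q al hal τ

end small

section deriv

variable {M d : ℕ}

/-- The chain rule for a polynomial in functions. -/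
theorem fderiv_eval {X : (Fin d → ℝ) → Fin M → ℂ} (hX : ContDiff ℝ 2 X)
    (p : MvPolynomial (Fin M) ℂ) (θ v : Fin d → ℝ) :
    fderiv ℝ (fun θ => MvPolynomial.eval (X θ) p) θ v =
      ∑ l, MvPolynomial.eval (X θ) (MvPolynomial.pderiv l p) *
        fderiv ℝ (fun θ => X θ l) θ v := by
  classical
  have hXl : ∀ l, DifferentiableAt ℝ (fun θ => X θ l) θ := fun l =>
    ((contDiff_pi.1 hX l).differentiable (by norm_num)) θ
  have hd : ∀ p : MvPolynomial (Fin M) ℂ,
      DifferentiableAt ℝ (fun θ => MvPolynomial.eval (X θ) p) θ := by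
    intro p
    induction p using MvPolynomial.induction_on with
    | C c => simp
    | add p q hp hq => simpa using hp.fun_add hq
    | mul_X p k hp => simpa using hp.fun_mul (hXl k)
  induction p using MvPolynomial.induction_on with
  | C c => simp
  | add p q hp hq =>
    have e1 : (fun θ => MvPolynomial.eval (X θ) (p + q)) =
        fun θ => MvPolynomial.eval (X θ) p + MvPolynomial.eval (X θ) q := by
      funext θ
      rw [map_add]
    rw [e1, fderiv_fun_add (hd p) (hd q), add_apply, hp, hq, ← Finset.sum_add_distrib]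
    refine Finset.sum_congr rfl fun l _ => ?_
    rw [map_add, map_add, add_mul]
  | mul_X p k hp =>
    have e1 : (fun θ => MvPolynomial.eval (X θ) (p * MvPolynomial.X k)) =
        fun θ => MvPolynomial.eval (X θ) p * X θ k := by
      funext θ
      rw [map_mul, MvPolynomial.eval_X]
    rw [e1, fderiv_fun_mul (hd p) (hXl k), add_apply, smul_apply, smul_apply, hp, smul_eq_mul,
      smul_eq_mul]
    have e2 : ∀ l, MvPolynomial.eval (X θ) (MvPolynomial.pderiv l (p * MvPolynomial.X k)) *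
        fderiv ℝ (fun θ => X θ l) θ v = X θ k * (MvPolynomial.eval (X θ)
          (MvPolynomial.pderiv l p) * fderiv ℝ (fun θ => X θ l) θ v) +
        if k = l then MvPolynomial.eval (X θ) p * fderiv ℝ (fun θ => X θ l) θ v else 0 := by
      intro l
      rw [MvPolynomial.pderiv_mul, MvPolynomial.pderiv_X, map_add, map_mul, map_mul,
        MvPolynomial.eval_X]
      by_cases h : k = l
      · subst h
        rw [if_pos rfl, Pi.single_eq_same, map_one]
        ring
      · rw [if_neg h, Pi.single_eq_of_ne h, map_zero]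
        ring
    simp only [e2]
    rw [Finset.sum_add_distrib, ← Finset.mul_sum, Finset.sum_ite_eq, if_pos (Finset.mem_univ k)]
    ring

end deriv

end Pool.Agent.L7h9.NC
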